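import Pool.Agent.H8.UB.Targets

/-!
# MP_404602_al: a countable bound for the uniserial dimension (row FIN of the board ubd_modules)
-/

set_option autoImplicit false

open CategoryTheory TensorProduct

namespace Pool.Agent.H60.UB

open Pool.Agent.H8.UB Pool.Agent.H56.UDs

theorem al_noeth' {n : ℕ} {K : Type} [Field K] (s : SC n K) : IsNoetherianRing (Al s) :=
  isNoetherian_of_tower K (inferInstance : IsNoetherian K (Al s))

/-- ranks and chains -/
theorem rk_eq {L : Type 1} [Lattice L] [BoundedOrder L] {α : Ordinal.{0}}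
    (h : rk.{0} L = α) : St (α + 1) (⊥ : L) ⊤ := by
  classical
  unfold rk at h
  split_ifs at h with h1
  · have h2 : sInf {α : Ordinal.{0} | St (α + 1) (⊥ : L) ⊤} = α := WithTop.coe_injective h
    have h3 := csInf_mem (s := {α : Ordinal.{0} | St (α + 1) (⊥ : L) ⊤}) h1
    rw [h2] at h3
    exact h3
  · exact absurd h WithTop.top_ne_coe

theorem rk_le {L : Type 1} [Lattice L] [BoundedOrder L] {α : Ordinal.{0}}
    (h : St (α + 1) (⊥ : L) ⊤) : ∃ γ : Ordinal.{0}, γ ≤ α ∧ rk.{0} L = γ := by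
  classical
  refine ⟨sInf {α : Ordinal.{0} | St (α + 1) (⊥ : L) ⊤}, csInf_le' h, ?_⟩
  unfold rk
  rw [if_pos ⟨α, h⟩]

theorem pf_FIN (hUNB : T_UNB) (hALE : T_ALE) (hALR : T_ALR) (hRIG : T_RIG) (hMOC : T_MOC)
    (hMOU : T_MOU) (hCDM : T_CDM) (hFUM : T_FUM.{0, 1}) (hLAB : T_LAB.{0, 1})
    (hLAX : T_LAX.{0, 1, 1}) : T_FIN := by
  obtain ⟨β₀, hβ₀, hU⟩ := hUNB
  have hle1 : β₀ + 1 ≤ Ordinal.omega0 * (β₀ + 1) :=
    Ordinal.le_mul_right _ Ordinal.omega0_pos
  refine ⟨Ordinal.omega0 * (β₀ + 1) + 1, ?_, ?_, ?_⟩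
  · rw [Ordinal.card_add, Ordinal.card_mul, Ordinal.card_add, Ordinal.card_omega0,
      Ordinal.card_one]
    refine Cardinal.add_le_aleph0.2 ⟨?_, Cardinal.one_le_aleph0⟩
    calc Cardinal.aleph0 * (β₀.card + 1) ≤ Cardinal.aleph0 * Cardinal.aleph0 :=
          mul_le_mul_right (Cardinal.add_le_aleph0.2 ⟨hβ₀, Cardinal.one_le_aleph0⟩) _
      _ = Cardinal.aleph0 := Cardinal.aleph0_mul_aleph0
  · intro k _ R _ _ _
    obtain ⟨n, s, ⟨e0⟩⟩ := hALE.1 k Rᵐᵒᵖ
    obtain ⟨e1⟩ := hALE.2 k (AlgebraicClosure k) R n s ⟨e0⟩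
    have h1 : UD (AlgebraicClosure k ⊗[k] R) =
        UDl (Al (s.map (algebraMap k (AlgebraicClosure k)))) := hRIG _ _ e1
    have h2 : UD R = UDl (Al s) := hRIG _ _ e0.toRingEquiv
    rcases hU (AlgebraicClosure k) n (s.map (algebraMap k (AlgebraicClosure k))) with h | h
    · left
      rw [h1, h]
    · right
      obtain ⟨α, hα, h3⟩ := h
      have _ : Coh (FGModuleCat.{0} (Al s)) := (hMOC (Al s)).1
      have _ : Fact (IsFP (UF (Al s))) := ⟨(hMOC (Al s)).2.1⟩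
      have _ : Coh (FGModuleCat.{0} (Al (s.map (algebraMap k (AlgebraicClosure k))))) :=
        (hMOC _).1
      have _ : Fact (IsFP (UF (Al (s.map (algebraMap k (AlgebraicClosure k)))))) :=
        ⟨(hMOC _).2.1⟩
      have _ : IsNoetherianRing (Al s) := al_noeth' s
      obtain ⟨e, he1, -, he2, he3, he4, -⟩ := hCDM (Al s)
        (Al (s.map (algebraMap k (AlgebraicClosure k))))
        (alMap s (algebraMap k (AlgebraicClosure k))) (hALR k (AlgebraicClosure k) _ n s)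
      rw [hMOU] at h3
      have h4 := rk_eq h3
      rw [← he3, ← he4] at h4
      have _ : IsModularLattice
          (LL (UF (Al (s.map (algebraMap k (AlgebraicClosure k)))))) := hFUM _ _
      have h5 := hLAX _ _ e he1 he2 (α + 1) ⊥ ⊤ h4
      have h6 := (hLAB (LL (UF (Al s)))).2.2.2.1 (Ordinal.omega0 * (α + 1))
        (Ordinal.omega0 * (α + 1) + 1) ⊥ ⊤ (le_self_add) h5
      obtain ⟨γ, hγ, h7⟩ := rk_le h6
      refine ⟨γ, ?_, ?_⟩
      · refine lt_of_le_of_lt hγ ?_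
        have h8 : α + 1 ≤ β₀ + 1 := by
          refine le_trans ?_ (le_self_add)
          exact Order.add_one_le_of_lt hα
        exact lt_of_le_of_lt (mul_le_mul_right h8 _) (Order.lt_add_one_iff.2 le_rfl)
      · rw [h2, hMOU]
        exact h7
  · intro k _ _ R _ _ _
    obtain ⟨n, s, ⟨e0⟩⟩ := hALE.1 k Rᵐᵒᵖ
    have h2 : UD R = UDl (Al s) := hRIG _ _ e0.toRingEquiv
    rw [h2]
    rcases hU k n s with h | ⟨α, hα, h⟩
    · exact Or.inl h
    · refine Or.inr ⟨α, ?_, h⟩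
      refine lt_of_lt_of_le hα (le_trans (le_self_add) (hle1.trans (le_self_add)))

end Pool.Agent.H60.UB
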